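import Pool.Agent.helper27.XL.HUR
import Mathlib.NumberTheory.LSeries.Nonvanishing
import Mathlib.NumberTheory.DirichletCharacter.GaussSum

set_option autoImplicit false

namespace Pool.Agent.helper34.EL

open Finset ZMod

theorem BNZ_geom (ζ : ℂ) (N : ℕ) :
    (ζ - 1) * ∑ k ∈ range N, (k : ℂ) * ζ ^ k = N * ζ ^ N - ζ * ∑ k ∈ range N, ζ ^ k := by
  induction N with
  | zero => simp
  | succ N ih =>
    rw [sum_range_succ, sum_range_succ, mul_add, ih]
    push_cast
    ring

theorem BNZ_sum_range (N : ℕ) [NeZero N] (f : ZMod N → ℂ) :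
    ∑ w : ZMod N, f w = ∑ k ∈ range N, f (k : ZMod N) := by
  rw [← Fin.sum_univ_eq_sum_range (fun k => f (k : ZMod N)) N]
  obtain ⟨m, rfl⟩ : ∃ m, N = m + 1 := ⟨N - 1, (Nat.succ_pred_eq_of_ne_zero (NeZero.ne N)).symm⟩
  apply Fintype.sum_congr
  intro w
  congr 1
  exact (Fin.cast_val_eq_self w).symm

theorem BNZ_val_sum (N : ℕ) [NeZero N] (j : ZMod N) (hj : j ≠ 0) :
    (stdAddChar j - 1) * ∑ w : ZMod N, (w.val : ℂ) * stdAddChar (w * j) = N := by
  rw [BNZ_sum_range]
  have h1 : ∀ k ∈ range N, (((k : ZMod N)).val : ℂ) * stdAddChar ((k : ZMod N) * j) =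
      (k : ℂ) * (stdAddChar j : ℂ) ^ k := by
    intro k hk
    rw [ZMod.val_natCast_of_lt (mem_range.mp hk), ← nsmul_eq_mul k j, AddChar.map_nsmul_eq_pow]
  rw [sum_congr rfl h1, BNZ_geom]
  have hN : (stdAddChar j : ℂ) ^ N = 1 := by
    rw [← AddChar.map_nsmul_eq_pow, nsmul_eq_mul, CharP.cast_eq_zero, zero_mul,
      AddChar.map_zero_eq_one]
  have hne : (stdAddChar j : ℂ) ≠ 1 := by
    intro h
    apply hj
    apply injective_stdAddChar
    rw [h, AddChar.map_zero_eq_one]
  have hg : ∑ k ∈ range N, (stdAddChar j : ℂ) ^ k = 0 := by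
    rw [geom_sum_eq hne, hN, sub_self, zero_div]
  rw [hN, hg]
  ring

theorem BNZ_cot (N : ℕ) [NeZero N] (j : ZMod N) (hj : j ≠ 0) :
    Complex.cot (Real.pi * ((j.val : ℝ) / (N : ℝ) : ℝ)) =
      Complex.I + 2 * Complex.I / N * ∑ w : ZMod N, (w.val : ℂ) * stdAddChar (w * j) := by
  have hN : (N : ℂ) ≠ 0 := by exact_mod_cast NeZero.ne N
  have hne : (stdAddChar j : ℂ) ≠ 1 := by
    intro h
    apply hj
    apply injective_stdAddChar
    rw [h, AddChar.map_zero_eq_one]
  have hsub : (stdAddChar j : ℂ) - 1 ≠ 0 := sub_ne_zero.mpr hne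
  have hs := BNZ_val_sum N j hj
  have hs' : ∑ w : ZMod N, (w.val : ℂ) * stdAddChar (w * j) = N / (stdAddChar j - 1) := by
    rw [eq_div_iff hsub, mul_comm]
    exact hs
  rw [hs', Complex.cot_eq_exp_ratio]
  have he : Complex.exp (2 * Complex.I * (Real.pi * ((j.val : ℝ) / (N : ℝ) : ℝ))) =
      stdAddChar j := by
    have h1 : (j : ZMod N) = ((j.val : ℤ) : ZMod N) := by
      push_cast
      exact (ZMod.natCast_zmod_val j).symm
    conv_rhs => rw [h1]
    rw [stdAddChar_coe]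
    congr 1
    push_cast
    ring
  rw [he]
  have hsub' : (1 : ℂ) - stdAddChar j ≠ 0 := by
    intro h
    apply hsub
    linear_combination -h
  have hI : Complex.I ≠ 0 := Complex.I_ne_zero
  rw [div_eq_iff (mul_ne_zero hI hsub')]
  have : (1 : ℂ) - stdAddChar j = -(stdAddChar j - 1) := by ring
  rw [this]
  field_simp
  have hI2 : Complex.I ^ 2 = -1 := Complex.I_sq
  rw [hI2]
  ring

theorem bern_ne_zero (N : ℕ) [NeZero N] (χ : DirichletCharacter ℂ N) (hχ : χ.IsPrimitive)
    (hodd : χ.Odd) : ∑ w : ZMod N, χ w * (w.val : ℂ) ≠ 0 := by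
  intro hB
  have hoi : ∀ w : ZMod N, χ (-w) = -χ w := by
    intro w
    have h := hodd
    rw [DirichletCharacter.Odd] at h
    rw [← neg_one_mul, map_mul, h]
    ring
  -- the inverse character
  have hχ1 : χ ≠ 1 := by
    rintro rfl
    have h := hodd
    rw [DirichletCharacter.Odd, MulChar.one_apply (isUnit_one.neg)] at h
    norm_num at h
  have hinv1 : χ⁻¹ ≠ 1 := inv_ne_one.mpr hχ1
  have hprim : (χ⁻¹).IsPrimitive := by
    rw [DirichletCharacter.isPrimitive_def, DirichletCharacter.conductor_inv]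
    exact hχ
  have hN1 : N ≠ 1 := by
    rintro rfl
    apply hχ1
    ext a
    have : a = 1 := Subsingleton.elim _ _
    rw [this]
    simp
  have hinv_odd : Function.Odd (fun w : ZMod N => χ⁻¹ w) := by
    intro w
    change χ⁻¹ (-w) = -χ⁻¹ w
    rw [MulChar.inv_apply_eq_inv', MulChar.inv_apply_eq_inv', hoi, inv_neg]
  have hL := DirichletCharacter.LFunction_apply_one_ne_zero hinv1
  apply hL
  have hL1 : DirichletCharacter.LFunction χ⁻¹ 1 = ZMod.LFunction (fun w : ZMod N => χ⁻¹ w) 1 := rfl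
  rw [hL1, ZMod.LFunction_def_odd hinv_odd]
  have hinv0 : (χ⁻¹) (0 : ZMod N) = 0 := by
    apply MulChar.map_nonunit
    intro h
    rw [isUnit_zero_iff] at h
    have : Subsingleton (ZMod N) := subsingleton_of_zero_eq_one h
    rw [ZMod.subsingleton_iff] at this
    exact hN1 this
  have hterm : ∀ j : ZMod N, χ⁻¹ j * HurwitzZeta.hurwitzZetaOdd (toAddCircle j) 1 =
      χ⁻¹ j * ((Real.pi : ℂ) / 2 * (Complex.I + 2 * Complex.I / N *
        ∑ w : ZMod N, (w.val : ℂ) * stdAddChar (w * j))) := by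
    intro j
    by_cases hj : j = 0
    · rw [hj, hinv0, zero_mul, zero_mul]
    · rw [toAddCircle_apply]
      have hv : 0 < j.val := by
        rw [Nat.pos_iff_ne_zero]
        intro h
        exact hj ((ZMod.val_eq_zero j).mp h)
      have hN0 : (0 : ℝ) < N := by exact_mod_cast Nat.pos_of_ne_zero (NeZero.ne N)
      have := hurwitzOdd_one ((j.val : ℝ) / (N : ℝ)) (div_pos (by exact_mod_cast hv) hN0)
        ((div_lt_one hN0).mpr (by exact_mod_cast ZMod.val_lt j))
      rw [this, BNZ_cot N j hj]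
  rw [sum_congr rfl (fun j _ => hterm j)]
  have hsum : ∑ j : ZMod N, χ⁻¹ j * ((Real.pi : ℂ) / 2 * (Complex.I + 2 * Complex.I / N *
        ∑ w : ZMod N, (w.val : ℂ) * stdAddChar (w * j))) =
      (Real.pi : ℂ) / 2 * Complex.I * ∑ j : ZMod N, χ⁻¹ j + (Real.pi : ℂ) * Complex.I / N *
        ∑ w : ZMod N, (w.val : ℂ) * ∑ j : ZMod N, χ⁻¹ j * stdAddChar (w * j) := by
    simp only [mul_add, sum_add_distrib, mul_sum]
    congr 1
    · apply sum_congr rfl
      intro j _
      ring
    · rw [sum_comm]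
      apply sum_congr rfl
      intro w _
      apply sum_congr rfl
      intro j _
      ring
  rw [hsum, MulChar.sum_eq_zero_of_ne_one hinv1]
  have hgauss : ∀ w : ZMod N, ∑ j : ZMod N, χ⁻¹ j * stdAddChar (w * j) =
      χ w * gaussSum χ⁻¹ (stdAddChar (N := N)) := by
    intro w
    have := gaussSum_mulShift_of_isPrimitive (e := stdAddChar (N := N)) hprim w
    rw [inv_inv] at this
    rw [← this]
    rfl
  simp only [hgauss]
  have : ∑ w : ZMod N, (w.val : ℂ) * (χ w * gaussSum χ⁻¹ (stdAddChar (N := N))) =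
      gaussSum χ⁻¹ (stdAddChar (N := N)) * ∑ w : ZMod N, χ w * (w.val : ℂ) := by
    rw [mul_sum]
    apply sum_congr rfl
    intro w _
    ring
  rw [this, hB]
  ring

end Pool.Agent.helper34.EL
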