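import Mathlib.NumberTheory.LSeries.HurwitzZetaOdd
import Mathlib.Analysis.SpecialFunctions.Trigonometric.Cotangent
import Mathlib.Analysis.Normed.Group.Tannery

set_option autoImplicit false

namespace Pool.Agent.helper34.EL

open Filter Topology

/-- the real terms -/
noncomputable def HUR_t (a s : ℝ) (n : ℕ) : ℝ := (((n : ℝ) + a) ^ (-s) - ((n : ℝ) + 1 - a) ^ (-s)) / 2

theorem HUR_mono (n : ℕ) (hn : 1 ≤ n) (s : ℝ) (h1 : 1 ≤ s) (h2 : s ≤ 2) :
    (n : ℝ) ^ (-s) - ((n : ℝ) + 1) ^ (-s) ≤ 2 / (n : ℝ) ^ 2 := by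
  have hn' : (1 : ℝ) ≤ n := by exact_mod_cast hn
  have hpos : (0 : ℝ) < n := by linarith
  have hb : 1 + s * (-(1 / ((n : ℝ) + 1))) ≤ (1 + (-(1 / ((n : ℝ) + 1)))) ^ s := by
    apply one_add_mul_self_le_rpow_one_add _ h1
    rw [neg_le_neg_iff, div_le_one (by linarith)]
    linarith
  have he : 1 + (-(1 / ((n : ℝ) + 1))) = (n : ℝ) / ((n : ℝ) + 1) := by
    field_simp
    ring
  rw [he, Real.div_rpow hpos.le (by linarith)] at hb
  have hns : 0 < (n : ℝ) ^ s := Real.rpow_pos_of_pos hpos s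
  have hns' : 0 < ((n : ℝ) + 1) ^ s := Real.rpow_pos_of_pos (by linarith) s
  rw [Real.rpow_neg hpos.le, Real.rpow_neg (by linarith)]
  have h3 : ((n : ℝ) ^ s)⁻¹ - (((n : ℝ) + 1) ^ s)⁻¹ ≤ ((n : ℝ) ^ s)⁻¹ * (s * (1 / ((n : ℝ) + 1))) := by
    have : (((n : ℝ) + 1) ^ s)⁻¹ = ((n : ℝ) ^ s)⁻¹ * ((n : ℝ) ^ s / ((n : ℝ) + 1) ^ s) := by
      field_simp
    rw [this]
    have h4 : 0 ≤ ((n : ℝ) ^ s)⁻¹ := (inv_pos.mpr hns).le
    nlinarith
  refine h3.trans ?_
  have h5 : (n : ℝ) ≤ (n : ℝ) ^ s := by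
    calc (n : ℝ) = (n : ℝ) ^ (1 : ℝ) := (Real.rpow_one _).symm
      _ ≤ (n : ℝ) ^ s := Real.rpow_le_rpow_of_exponent_le hn' h1
  have h6 : ((n : ℝ) ^ s)⁻¹ ≤ (n : ℝ)⁻¹ := inv_anti₀ hpos h5
  have h7 : s * (1 / ((n : ℝ) + 1)) ≤ 2 * (1 / (n : ℝ)) := by
    apply mul_le_mul h2 _ (by positivity) (by norm_num)
    apply one_div_le_one_div_of_le hpos
    linarith
  calc ((n : ℝ) ^ s)⁻¹ * (s * (1 / ((n : ℝ) + 1))) ≤ (n : ℝ)⁻¹ * (2 * (1 / (n : ℝ))) := by
        apply mul_le_mul h6 h7 (by positivity) (by positivity)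
    _ = 2 / (n : ℝ) ^ 2 := by
        field_simp

theorem HUR_bound (a : ℝ) (h0 : 0 < a) (h1 : a < 1) (n : ℕ) (s : ℝ) (hs1 : 1 ≤ s) (hs2 : s ≤ 2) :
    |HUR_t a s n| ≤ (if n = 0 then a ^ (-(2 : ℝ)) + (1 - a) ^ (-(2 : ℝ)) else 0) + 2 / (n : ℝ) ^ 2 := by
  unfold HUR_t
  by_cases hn : n = 0
  · subst hn
    simp only [if_true, Nat.cast_zero, zero_add]
    have e1 : a ^ (-s) ≤ a ^ (-(2 : ℝ)) :=
      Real.rpow_le_rpow_of_exponent_ge h0 h1.le (by linarith)
    have e2 : (1 - a) ^ (-s) ≤ (1 - a) ^ (-(2 : ℝ)) :=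
      Real.rpow_le_rpow_of_exponent_ge (by linarith) (by linarith) (by linarith)
    have e3 : 0 ≤ a ^ (-s) := Real.rpow_nonneg h0.le _
    have e4 : 0 ≤ (1 - a) ^ (-s) := Real.rpow_nonneg (by linarith) _
    have e5 : (2 : ℝ) / 0 ^ 2 = 0 := by norm_num
    rw [e5, add_zero, abs_le]
    constructor <;> linarith
  · have hn1 : 1 ≤ n := Nat.one_le_iff_ne_zero.mpr hn
    have hn' : (1 : ℝ) ≤ n := by exact_mod_cast hn1
    rw [if_neg hn, zero_add]
    have hm := HUR_mono n hn1 s hs1 hs2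
    have a1 : ((n : ℝ) + a) ^ (-s) ≤ (n : ℝ) ^ (-s) :=
      Real.rpow_le_rpow_of_nonpos (by linarith) (by linarith) (by linarith)
    have a2 : ((n : ℝ) + 1) ^ (-s) ≤ ((n : ℝ) + a) ^ (-s) :=
      Real.rpow_le_rpow_of_nonpos (by linarith) (by linarith) (by linarith)
    have a3 : ((n : ℝ) + 1 - a) ^ (-s) ≤ (n : ℝ) ^ (-s) :=
      Real.rpow_le_rpow_of_nonpos (by linarith) (by linarith) (by linarith)
    have a4 : ((n : ℝ) + 1) ^ (-s) ≤ ((n : ℝ) + 1 - a) ^ (-s) :=
      Real.rpow_le_rpow_of_nonpos (by linarith) (by linarith) (by linarith)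
    have a5 : (0 : ℝ) ≤ 2 / (n : ℝ) ^ 2 := by positivity
    rw [abs_le]
    constructor <;> linarith

theorem HUR_summable (a : ℝ) : Summable (fun n : ℕ =>
    (if n = 0 then a ^ (-(2 : ℝ)) + (1 - a) ^ (-(2 : ℝ)) else 0) + 2 / (n : ℝ) ^ 2) := by
  apply Summable.add
  · apply summable_of_ne_finset_zero (s := {0})
    intro b hb
    rw [if_neg (by simpa using hb)]
  · have := (Real.summable_one_div_nat_pow (p := 2)).mpr (by norm_num)
    have h := this.mul_left 2
    refine h.congr ?_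
    intro n
    ring

theorem HUR_tsum_one (a : ℝ) (h0 : 0 < a) (h1 : a < 1) :
    HasSum (fun n : ℕ => ((HUR_t a 1 n : ℝ) : ℂ))
      ((Real.pi : ℂ) / 2 * Complex.cot (Real.pi * a)) := by
  have hsr : Summable (fun n : ℕ => HUR_t a 1 n) := by
    apply Summable.of_norm_bounded (HUR_summable a)
    intro n
    rw [Real.norm_eq_abs]
    exact HUR_bound a h0 h1 n 1 le_rfl (by norm_num)
  have hsc : Summable (fun n : ℕ => ((HUR_t a 1 n : ℝ) : ℂ)) := by
    exact_mod_cast hsr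
  have hz : (a : ℂ) ∈ Complex.integerComplement := by
    rw [Complex.mem_integerComplement_iff]
    rintro ⟨n, hn⟩
    have hn' : (n : ℝ) = a := by exact_mod_cast hn
    have b0 : (0 : ℝ) < n := by rw [hn']; exact h0
    have b1 : (n : ℝ) < 1 := by rw [hn']; exact h1
    have c0 : 0 < n := by exact_mod_cast b0
    have c1 : n < 1 := by exact_mod_cast b1
    omega
  have hcot := cot_series_rep' hz
  have hcs : Tendsto (fun N : ℕ => ∑ n ∈ Finset.range N,
      (1 / ((a : ℂ) - (n + 1)) + 1 / ((a : ℂ) + (n + 1)))) atTop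
      (𝓝 (Real.pi * Complex.cot (Real.pi * a) - 1 / a)) := by
    rw [hcot]
    exact (Summable.hasSum (summable_cotTerm hz)).tendsto_sum_nat
  rw [hsc.hasSum_iff_tendsto_nat]
  have hpart : ∀ N : ℕ, ∑ n ∈ Finset.range N, ((HUR_t a 1 n : ℝ) : ℂ) =
      ((∑ n ∈ Finset.range N, (1 / ((a : ℂ) - (n + 1)) + 1 / ((a : ℂ) + (n + 1)))) + 1 / a
        - 1 / ((N : ℂ) + a)) / 2 := by
    intro N
    induction N with
    | zero => simp
    | succ N ih =>
      rw [Finset.sum_range_succ, Finset.sum_range_succ, ih]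
      have ht : ((HUR_t a 1 N : ℝ) : ℂ) = (1 / ((N : ℂ) + a) - 1 / ((N : ℂ) + 1 - a)) / 2 := by
        unfold HUR_t
        rw [Real.rpow_neg_one, Real.rpow_neg_one]
        push_cast
        simp only [one_div]
      rw [ht]
      have e1 : (1 : ℂ) / ((a : ℂ) - (N + 1)) = - (1 / ((N : ℂ) + 1 - a)) := by
        rw [← neg_sub, one_div, one_div, inv_neg]
      have e2 : (1 : ℂ) / ((a : ℂ) + (N + 1)) = 1 / (((N + 1 : ℕ) : ℂ) + a) := by
        push_cast
        congr 1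
        ring
      rw [e1, e2]
      ring
  simp_rw [hpart]
  have hlim : Tendsto (fun N : ℕ => (1 : ℂ) / ((N : ℂ) + a)) atTop (𝓝 0) := by
    have : Tendsto (fun N : ℕ => (1 : ℝ) / ((N : ℝ) + a)) atTop (𝓝 0) := by
      apply Tendsto.comp (g := fun x : ℝ => 1 / x) (y := atTop)
      · simpa using tendsto_inv_atTop_zero (𝕜 := ℝ)
      · exact tendsto_atTop_add_const_right _ _ tendsto_natCast_atTop_atTop
    have h2 := (Complex.continuous_ofReal.tendsto 0).comp this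
    simp only [Complex.ofReal_zero] at h2
    refine h2.congr ?_
    intro N
    simp
  have := ((hcs.add_const (1 / (a : ℂ))).sub hlim).div_const 2
  convert this using 2
  ring

theorem hurwitzOdd_one (a : ℝ) (h0 : 0 < a) (h1 : a < 1) :
    HurwitzZeta.hurwitzZetaOdd (a : UnitAddCircle) 1 =
      (Real.pi : ℂ) / 2 * Complex.cot (Real.pi * a) := by
  have hcont : Tendsto (fun s : ℝ => HurwitzZeta.hurwitzZetaOdd (a : UnitAddCircle) (s : ℂ))
      (𝓝[>] (1 : ℝ)) (𝓝 (HurwitzZeta.hurwitzZetaOdd (a : UnitAddCircle) 1)) := by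
    have hc : Continuous (fun s : ℝ => HurwitzZeta.hurwitzZetaOdd (a : UnitAddCircle) (s : ℂ)) :=
      (HurwitzZeta.differentiable_hurwitzZetaOdd (a : UnitAddCircle)).continuous.comp
        Complex.continuous_ofReal
    have := (hc.tendsto 1).mono_left (nhdsWithin_le_nhds (s := Set.Ioi (1 : ℝ)))
    simpa using this
  have hdom : Tendsto (fun s : ℝ => ∑' n : ℕ, ((HUR_t a s n : ℝ) : ℂ)) (𝓝[>] (1 : ℝ))
      (𝓝 (∑' n : ℕ, ((HUR_t a 1 n : ℝ) : ℂ))) := by
    apply tendsto_tsum_of_dominated_convergence (HUR_summable a)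
    · intro n
      apply (Complex.continuous_ofReal.tendsto _).comp
      have : ContinuousAt (fun s : ℝ => HUR_t a s n) 1 := by
        unfold HUR_t
        apply ContinuousAt.div_const
        apply ContinuousAt.sub
        · apply ContinuousAt.comp (g := fun y : ℝ => ((n : ℝ) + a) ^ y)
          · apply Real.continuousAt_const_rpow
            positivity
          · exact continuousAt_id.neg
        · apply ContinuousAt.comp (g := fun y : ℝ => ((n : ℝ) + 1 - a) ^ y)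
          · apply Real.continuousAt_const_rpow
            have : (0 : ℝ) ≤ n := Nat.cast_nonneg n
            linarith
          · exact continuousAt_id.neg
      exact this.tendsto.mono_left nhdsWithin_le_nhds
    · have h2 : ∀ᶠ s : ℝ in 𝓝[>] (1 : ℝ), s < 2 :=
        nhdsWithin_le_nhds (Iio_mem_nhds (by norm_num))
      filter_upwards [h2, self_mem_nhdsWithin] with s hs hs'
      intro n
      rw [Complex.norm_real, Real.norm_eq_abs]
      exact HUR_bound a h0 h1 n s (le_of_lt hs') hs.le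
  have heq : (fun s : ℝ => HurwitzZeta.hurwitzZetaOdd (a : UnitAddCircle) (s : ℂ)) =ᶠ[𝓝[>] (1 : ℝ)]
      (fun s : ℝ => ∑' n : ℕ, ((HUR_t a s n : ℝ) : ℂ)) := by
    filter_upwards [self_mem_nhdsWithin] with s hs
    have hs' : 1 < s := hs
    have := HurwitzZeta.hasSum_nat_hurwitzZetaOdd_of_mem_Icc (a := a) ⟨h0.le, h1.le⟩
      (s := (s : ℂ)) (by simpa using hs')
    rw [← this.tsum_eq]
    apply tsum_congr
    intro n
    unfold HUR_t
    have p1 : (0 : ℝ) ≤ (n : ℝ) + a := by positivity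
    have p2 : (0 : ℝ) ≤ (n : ℝ) + 1 - a := by
      have : (0 : ℝ) ≤ n := Nat.cast_nonneg n
      linarith
    rw [Real.rpow_neg p1, Real.rpow_neg p2]
    push_cast
    rw [Complex.ofReal_cpow p1, Complex.ofReal_cpow p2]
    push_cast
    simp only [one_div]
  have hlim := hdom.congr' heq.symm
  have := tendsto_nhds_unique hcont hlim
  rw [this, (HUR_tsum_one a h0 h1).tsum_eq]

end Pool.Agent.helper34.EL
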